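import Pool.Agent.H92.EQ.TP
import Pool.Agent.H43.EQ.KJ

/-!
Row PVI of the board for MP_75a732_an: the weights.
-/

namespace Pool.Agent.H76.EQ

open scoped BigOperators ComplexConjugate ContDiff ComplexOrder
open MeasureTheory Pool.Agent.H92.EQ Pool.Agent.H43.EQ

noncomputable section

theorem eval_smooth {N : ℕ} (h : MvPolynomial (Fin N) ℂ) :
    ContDiff ℝ ∞ (fun z : Fin N → ℂ => MvPolynomial.eval z h) := by
  induction h using MvPolynomial.induction_on with
  | C a => simp only [MvPolynomial.eval_C]; exact contDiff_const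
  | add p q hp hq => simp only [map_add]; exact hp.add hq
  | mul_X p i hp =>
    simp only [map_mul, MvPolynomial.eval_X]
    exact hp.mul (contDiff_apply ℝ ℂ i)

theorem nv_sq {N : ℕ} (h : MvPolynomial (Fin N) ℂ) (m : ℕ) (z : Fin N → ℂ) :
    nv h m z ^ 2 = ‖MvPolynomial.eval z h‖ ^ 2 / nsq z ^ m := by
  unfold nv
  rw [div_pow, ← pow_mul, mul_comm m 2, pow_mul, KJ_nrm_sq]

theorem nv_nonneg {N : ℕ} (h : MvPolynomial (Fin N) ℂ) (m : ℕ) (z : Fin N → ℂ) :
    0 ≤ nv h m z :=
  div_nonneg (norm_nonneg _) (pow_nonneg (KJ_nrm_nonneg z) m)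

theorem nv_hom {N m : ℕ} {h : MvPolynomial (Fin N) ℂ} (hh : h.IsHomogeneous m) {l : ℂ}
    (hl : l ≠ 0) {z : Fin N → ℂ} : nv h m (l • z) = nv h m z := by
  unfold nv
  rw [KJ_evhom hh, KJ_nrm_smul, mul_pow, norm_mul, norm_pow]
  exact mul_div_mul_left _ _ (pow_ne_zero _ (norm_ne_zero_iff.2 hl))

theorem pf_PVI : T_PVI := by
  intro N m h r hh hr
  refine ⟨⟨?_, ?_⟩, ?_, ?_, ?_⟩
  · have h1 : ContDiffOn ℝ ∞ (fun z : Fin N → ℂ => nv h m z ^ 2 / r ^ 2) {0}ᶜ := by
      have h2 : ContDiffOn ℝ ∞ (fun z : Fin N → ℂ =>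
          ‖MvPolynomial.eval z h‖ ^ 2 / nsq z ^ m) {0}ᶜ := by
        refine ContDiffOn.div ((eval_smooth h).norm_sq ℝ).contDiffOn
          (KJ_nsq_contDiff.pow m).contDiffOn ?_
        intro z hz
        exact pow_ne_zero _ (KJ_nsq_pos hz).ne'
      refine (h2.div_const (r ^ 2)).congr ?_
      intro z _
      rw [nv_sq]
    unfold vis lam
    refine contDiffOn_const.sub ?_
    exact Real.smoothTransition.contDiff.comp_contDiffOn (h1.sub contDiffOn_const)
  · intro l z hl _
    unfold vis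
    rw [nv_hom hh hl]
  · intro z
    unfold vis lam
    exact ⟨by linarith [Real.smoothTransition.le_one (nv h m z ^ 2 / r ^ 2 - 1)],
      by linarith [Real.smoothTransition.nonneg (nv h m z ^ 2 / r ^ 2 - 1)]⟩
  · intro z hz
    unfold vis lam
    have h1 : nv h m z ^ 2 / r ^ 2 ≤ 1 := by
      rw [div_le_one (by positivity)]
      exact pow_le_pow_left₀ (nv_nonneg h m z) hz 2
    rw [Real.smoothTransition.zero_of_nonpos (by linarith)]
    ring
  · intro z hz
    by_contra hcon
    push Not at hcon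
    apply hz
    unfold vis lam
    have h1 : 2 ≤ nv h m z ^ 2 / r ^ 2 := by
      rw [le_div_iff₀ (by positivity)]
      nlinarith [nv_nonneg h m z]
    rw [Real.smoothTransition.one_of_one_le (by linarith)]
    ring

end

end Pool.Agent.H76.EQ
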